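import Mathlib
import Pool.Agent.H23.Indep2

set_option autoImplicit false

open Topology

namespace Pool.Agent.Results.MP_79deac_al.NoIndep

/-- The Zariski topology of an abelian group: the solution sets of `n • x = g` form a subbase of
closed sets, i.e. their complements generate the topology. -/
def zariski (G : Type) [AddCommGroup G] : TopologicalSpace G :=
  TopologicalSpace.generateFrom {U | ∃ (n : ℤ) (g : G), U = {x | n • x = g}ᶜ}

/-- `G` is Zariski-cofinite: the Zariski-closed sets are exactly `G` and the finite sets. -/
def ZCofinite (G : Type) [AddCommGroup G] : Prop :=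
  ∀ C : Set G, IsClosed[zariski G] C ↔ (C = Set.univ ∨ C.Finite)

/-- Two topologies are independent if their intersection is the cofinite topology: the sets open
in both are exactly the empty set and the sets with finite complement. -/
def Independent {X : Type} (t₁ t₂ : TopologicalSpace X) : Prop :=
  ∀ U : Set X, (IsOpen[t₁] U ∧ IsOpen[t₂] U) ↔ (U = ∅ ∨ Uᶜ.Finite)

/-- There is an uncountable Zariski-cofinite abelian group with no two independent Hausdorff
group topologies. -/
theorem result :
    ∃ (G : Type) (_ : AddCommGroup G), Uncountable G ∧ ZCofinite G ∧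
      ∀ t₁ t₂ : TopologicalSpace G,
        @IsTopologicalAddGroup G t₁ _ → @T2Space G t₁ →
        @IsTopologicalAddGroup G t₂ _ → @T2Space G t₂ → ¬ Independent t₁ t₂ := by
  open Pool.Agent.H23.Indep2 in
  have hu : Uncountable (J →₀ ℤ) := by
    rw [← Cardinal.aleph0_lt_mk_iff, mk_G]
    exact b_lt_J 0
  open Pool.Agent.H23.Indep2 in
  refine ⟨J →₀ ℤ, inferInstance, hu, ?_, ?_⟩
  · intro C
    constructor
    · intro hC
      have h1 : IsOpen[zariski (J →₀ ℤ)] Cᶜ := (@isOpen_compl_iff _ _ (zariski _)).2 hC
      have h2 : ∀ U : Set (J →₀ ℤ), IsOpen[zariski (J →₀ ℤ)] U → U = ∅ ∨ Uᶜ.Finite := by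
        intro U hU
        induction hU with
        | basic U hU =>
          obtain ⟨n, g, rfl⟩ := hU
          by_cases hn : n = 0
          · subst hn
            by_cases hg : g = 0
            · left; subst hg; ext x; simp
            · right
              have : {x : J →₀ ℤ | (0 : ℤ) • x = g} = ∅ := by
                ext x; simpa using fun h => hg h.symm
              rw [compl_compl, this]; exact Set.finite_empty
          · right
            rw [compl_compl]
            apply Set.Subsingleton.finite
            intro x hx y hy
            have hx' : n • x = g := hx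
            have hy' : n • y = g := hy
            exact smul_right_injective _ hn (hx'.trans hy'.symm)
        | univ => right; simp
        | inter U V _ _ hU hV =>
          rcases hU with rfl | hU
          · left; simp
          rcases hV with rfl | hV
          · left; simp
          right; rw [Set.compl_inter]; exact hU.union hV
        | sUnion S _ hS =>
          by_cases h : ∃ U ∈ S, Uᶜ.Finite
          · obtain ⟨U, hU, hf⟩ := h
            right
            exact hf.subset (Set.compl_subset_compl.2 (Set.subset_sUnion_of_mem hU))
          · left
            rw [Set.sUnion_eq_empty]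
            intro U hU
            exact (hS U hU).resolve_right fun hf => h ⟨U, hU, hf⟩
      rcases h2 _ h1 with h | h
      · left; exact Set.compl_empty_iff.1 h
      · right; rwa [compl_compl] at h
    · letI := zariski (J →₀ ℤ)
      haveI : T1Space (J →₀ ℤ) := ⟨fun g => by
        rw [← isOpen_compl_iff]
        exact TopologicalSpace.isOpen_generateFrom_of_mem ⟨1, g, by ext x; simp⟩⟩
      rintro (rfl | h)
      · exact isClosed_univ
      · exact h.isClosed
  · intro t₁ t₂ g1 h1 g2 h2 hI
    obtain ⟨F, hF, hFs⟩ := cover
    obtain ⟨C, hc, hi, c1, c2⟩ := main (mk_G ▸ sl_J) F hF hFs t₁ t₂ g1 g2 h1 h2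
    rcases (hI Cᶜ).1 ⟨(@isOpen_compl_iff _ _ t₁).2 c1, (@isOpen_compl_iff _ _ t₂).2 c2⟩ with h | h
    · rw [Set.compl_empty_iff] at h
      rw [h] at hc
      exact Set.not_countable_univ hc
    · rw [compl_compl] at h
      exact hi h

end Pool.Agent.Results.MP_79deac_al.NoIndep
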